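import Mathlib

/-!
# A partial order without a cofinal subset all of whose maximal chains have regular size

Let `T n` be the cardinal `ℵ_{n+1}`, regarded as a well order, and let `P0` be the product of the
`T n` with the pointwise order. Let `W` be the well-founded cofinal subset of `P0` formed by the
points `p` that lie below no point preceding `p` in a fixed well order of `P0`.

* Every chain of `W` is well ordered. Sending a non-maximal point `p` of the chain to a pair
  `(n, p n)`, where `n` is such that `p n` is below the `n`-th coordinate of the successor of `p`,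
  is an injection, so a chain of `W` has size at most `ℵ_ω`.
* Let `Q` be cofinal in `P0`, let `q0` be a point and let `k` be a natural number. Counting the
  possible restrictions to the first `k` coordinates gives one restriction `s` such that for each
  `g` there is a point of `Q` above `q0` that restricts to `s` and is above `g` in the other
  coordinates. So a chain of length `ω_k` and an upper bound of it can be constructed
  in `Q`. Doing this for all `k` one after the other gives a chain of size at least `ℵ_ω` in `Q`.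

So every cofinal subset of `W` has a maximal chain of size exactly `ℵ_ω`, a singular cardinal.
-/

set_option autoImplicit false

open Cardinal Set Order

namespace Pool.Agent.Results.MP_43ca77_lc.NoRegularCofinal

/-- A cardinality which is finite, or infinite and regular. -/
def FinOrReg (c : Cardinal.{0}) : Prop := c < ℵ₀ ∨ c.IsRegular

/-- `C` is a maximal chain of the subset `Q` of the partial order `P`. -/
def IsMaxChainOf {P : Type} [PartialOrder P] (Q C : Set P) : Prop :=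
  C ⊆ Q ∧ IsChain (· ≤ ·) C ∧ ∀ D : Set P, D ⊆ Q → IsChain (· ≤ ·) D → C ⊆ D → D = C

/-- Property (R): every maximal chain of `Q` has finite or infinite regular cardinality. -/
def PropR {P : Type} [PartialOrder P] (Q : Set P) : Prop :=
  ∀ C : Set P, IsMaxChainOf Q C → FinOrReg #C

/-- The regular cardinal `ℵ_{n+1}` as a well order. -/
abbrev T (n : ℕ) : Type := (ℵ_ ((n : Ordinal.{0}) + 1)).ord.ToType

/-- The product of the `T n` under the pointwise order. -/
abbrev P0 : Type := ∀ n, T n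

lemma mkT (n : ℕ) : #(T n) = ℵ_ ((n : Ordinal.{0}) + 1) := by
  simp [T]

lemma bdd (n : ℕ) (S : Set (T n)) (hS : #S ≤ ℵ_ (n : Ordinal.{0})) : ∃ b, ∀ x ∈ S, x < b := by
  have h1 : #S < Order.cof (T n) := by
    rw [show Order.cof (T n) = (ℵ_ ((n : Ordinal.{0}) + 1)).ord.cof from Ordinal.cof_toType _,
      (isRegular_aleph_add_one _).cof_ord]
    exact hS.trans_lt (aleph_lt_aleph.2 (Order.lt_add_one_iff.2 le_rfl))
  by_contra hcon
  push Not at hcon
  have h2 : IsCofinal S := fun a => by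
    obtain ⟨x, hx, hxa⟩ := hcon a
    exact ⟨x, hx, hxa⟩
  exact absurd (Order.cof_le h2) (not_le.2 h1)

/-- a strict upper bound if there is one -/
noncomputable def B (n : ℕ) (S : Set (T n)) : T n :=
  haveI : Nonempty (T n) := by
    rw [← mk_ne_zero_iff, mkT]
    exact (aleph_pos _).ne'
  Classical.epsilon fun b => ∀ x ∈ S, x < b

lemma B_spec (n : ℕ) (S : Set (T n)) (hS : #S ≤ ℵ_ (n : Ordinal.{0})) : ∀ x ∈ S, x < B n S :=
  Classical.epsilon_spec (bdd n S hS)

lemma prodBound (k : ℕ) : #(∀ i : Fin k, T i) ≤ ℵ_ (k : Ordinal.{0}) := by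
  rw [mk_pi, prod_eq_of_fintype]
  simp only [mkT, lift_id]
  have : ∀ k : ℕ, (∏ i : Fin k, ℵ_ (((i : ℕ) : Ordinal.{0}) + 1)) ≤ ℵ_ (k : Ordinal.{0}) := by
    intro k
    induction k with
    | zero => simp
    | succ k ih =>
      rw [Fin.prod_univ_castSucc]
      refine (mul_le_mul' ih le_rfl).trans ?_
      simp only [Fin.val_last]
      rw [mul_eq_max (aleph0_le_aleph _) (aleph0_le_aleph _)]
      push_cast
      exact max_le (aleph_le_aleph.2 le_self_add) le_rfl
  exact this k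

lemma stab (Q : Set P0) (hQ : ∀ p, ∃ q ∈ Q, p ≤ q) (q0 : P0) (k : ℕ) :
    ∃ s : ∀ i : Fin k, T i, ∀ g : P0, ∃ q ∈ Q, (∀ i : Fin k, q i = s i) ∧ q0 ≤ q ∧
      ∀ n, k ≤ n → g n ≤ q n := by
  by_contra hcon
  push Not at hcon
  choose g hg using hcon
  obtain ⟨q, hqQ, hq⟩ := hQ (fun n => max (q0 n) (B n (range fun s => g s n)))
  obtain ⟨n, hkn, hn⟩ := hg (fun i => q i) q hqQ (fun i => rfl) (fun n => (le_max_left _ _).trans (hq n))
  have h1 : g (fun i => q i) n < B n (range fun s => g s n) := by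
    refine B_spec n _ ?_ _ ⟨_, rfl⟩
    refine mk_range_le.trans ((prodBound k).trans (aleph_le_aleph.2 ?_))
    exact_mod_cast hkn
  exact absurd (h1.le.trans ((le_max_right _ _).trans (hq n))) (not_le.2 hn)

/-- A chain of length `ℵ_k` in `Q` above `q0` with an upper bound in `Q`. -/
lemma longChain (Q : Set P0) (hQ : ∀ p, ∃ q ∈ Q, p ≤ q) (q0 : P0) (k : ℕ) :
    ∃ E : Set P0, E ⊆ Q ∧ IsChain (· ≤ ·) E ∧ #E = ℵ_ (k : Ordinal.{0}) ∧ (∀ x ∈ E, q0 ≤ x) ∧
      ∃ t ∈ Q, ∀ x ∈ E, x ≤ t := by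
  obtain ⟨s, hs⟩ := stab Q hQ q0 k
  choose F hFQ hFs hFq hFg using hs
  let I : Type := (ℵ_ (k : Ordinal.{0})).ord.ToType
  have hI : #I = ℵ_ (k : Ordinal.{0}) := by simp [I]
  obtain ⟨c, hc⟩ : ∃ c : I → P0, ∀ i, c i = F (fun n => B n (range fun j : Iio i => c j n)) := by
    refine ⟨WellFounded.fix (C := fun _ => P0) (wellFounded_lt (α := I))
      (fun i rec => F (fun n => B n (range fun j : Iio i => rec j.1 j.2 n))), fun i => ?_⟩
    rw [WellFounded.fix_eq]
  have hbig : ∀ n, k ≤ n → ℵ_ (k : Ordinal.{0}) ≤ ℵ_ (n : Ordinal.{0}) := fun n hn =>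
    aleph_le_aleph.2 (by exact_mod_cast hn)
  have hlt : ∀ i j, j < i → ∀ n, k ≤ n → c j n < c i n := by
    intro i j hji n hn
    refine lt_of_lt_of_le (B_spec n (range fun j : Iio i => c j n) ?_ _ ⟨⟨j, hji⟩, rfl⟩) ?_
    · refine mk_range_le.trans (le_trans ?_ (hbig n hn))
      exact (mk_set_le _).trans hI.le
    · conv_rhs => rw [hc i]
      exact hFg (fun n => B n (range fun j : Iio i => c j n)) n hn
  have hle : ∀ i j, j ≤ i → c j ≤ c i := by
    intro i j hji
    rcases hji.eq_or_lt with rfl | hji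
    · exact le_rfl
    intro n
    rcases lt_or_ge n k with hn | hn
    · have h1 := hFs (fun n => B n (range fun l : Iio i => c l n)) ⟨n, hn⟩
      have h2 := hFs (fun n => B n (range fun l : Iio j => c l n)) ⟨n, hn⟩
      rw [← hc i] at h1
      rw [← hc j] at h2
      simp only at h1 h2
      rw [h1, h2]
    · exact (hlt i j hji n hn).le
  have hinj : Function.Injective c := by
    intro i j hij
    rcases lt_trichotomy i j with h | h | h
    · have := hlt j i h k le_rfl
      rw [hij] at this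
      exact absurd this (lt_irrefl _)
    · exact h
    · have := hlt i j h k le_rfl
      rw [hij] at this
      exact absurd this (lt_irrefl _)
  refine ⟨range c, ?_, ?_, ?_, ?_, F (fun n => B n (range fun j : I => c j n)), hFQ _, ?_⟩
  · rintro _ ⟨i, rfl⟩
    rw [hc i]
    exact hFQ _
  · rintro _ ⟨i, rfl⟩ _ ⟨j, rfl⟩ _
    rcases le_total i j with h | h
    · exact Or.inl (hle j i h)
    · exact Or.inr (hle i j h)
  · rw [mk_range_eq c hinj, hI]
  · rintro _ ⟨i, rfl⟩
    rw [hc i]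
    exact hFq _
  · rintro _ ⟨i, rfl⟩ n
    rcases lt_or_ge n k with hn | hn
    · have h1 := hFs (fun n => B n (range fun l : Iio i => c l n)) ⟨n, hn⟩
      have h2 := hFs (fun n => B n (range fun l : I => c l n)) ⟨n, hn⟩
      rw [← hc i] at h1
      simp only at h1 h2
      rw [h1, h2]
    · refine le_trans (B_spec n (range fun j : I => c j n) ?_ _ ⟨i, rfl⟩).le
        (hFg (fun n => B n (range fun j : I => c j n)) n hn)
      refine mk_range_le.trans (le_trans hI.le (hbig n hn))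

/-- Every cofinal set contains a chain of size at least `ℵ_ω`. -/
lemma hugeChain (Q : Set P0) (hQ : ∀ p, ∃ q ∈ Q, p ≤ q) :
    ∃ E : Set P0, E ⊆ Q ∧ IsChain (· ≤ ·) E ∧ ℵ_ Ordinal.omega0.{0} ≤ #E := by
  choose E hEQ hEc hEm hEq t htQ ht using longChain Q hQ
  have q0 : P0 := fun n => B n ∅
  let q : ℕ → P0 := fun n => Nat.rec q0 (fun k p => t p k) n
  have hq : ∀ n, q (n + 1) = t (q n) n := fun n => rfl
  have hne : ∀ p k, (E p k).Nonempty := by
    intro p k
    rw [← nonempty_coe_sort, ← mk_ne_zero_iff, hEm]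
    exact (aleph_pos _).ne'
  have hmono : Monotone q := by
    refine monotone_nat_of_le_succ fun n => ?_
    obtain ⟨x, hx⟩ := hne (q n) n
    exact (hEq (q n) n x hx).trans (ht (q n) n x hx)
  refine ⟨⋃ n, E (q n) n, iUnion_subset fun n => hEQ _ _, ?_, ?_⟩
  · have key : ∀ m n, m < n → ∀ x ∈ E (q m) m, ∀ y ∈ E (q n) n, x ≤ y := by
      intro m n hmn x hx y hy
      exact (ht (q m) m x hx).trans ((hmono (Nat.succ_le_of_lt hmn)).trans (hEq (q n) n y hy))
    intro x hx y hy hxy
    obtain ⟨m, hm⟩ := mem_iUnion.1 hx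
    obtain ⟨n, hn⟩ := mem_iUnion.1 hy
    rcases lt_trichotomy m n with h | h | h
    · exact Or.inl (key m n h x hm y hn)
    · subst h
      exact hEc _ _ hm hn hxy
    · exact Or.inr (key n m h y hn x hm)
  · rw [aleph_limit Ordinal.isSuccLimit_omega0]
    refine ciSup_le' fun ⟨a, ha⟩ => ?_
    obtain ⟨n, rfl⟩ := Ordinal.lt_omega0.1 ha
    rw [← hEm (q n) n]
    exact mk_le_mk_of_subset (subset_iUnion (fun n => E (q n) n) n)

/-- A well-founded cofinal subset of `P0`. -/
def W : Set P0 := {p | ∀ q : P0, WellOrderingRel q p → ¬ p ≤ q}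

lemma W_cofinal (p : P0) : ∃ q ∈ W, p ≤ q := by
  have hwf : WellFounded (WellOrderingRel : P0 → P0 → Prop) := WellOrderingRel.isWellOrder.wf
  obtain ⟨q, hq, hmin⟩ := hwf.has_min {q : P0 | p ≤ q} ⟨p, show p ≤ p from le_refl p⟩
  exact ⟨q, fun r hr hqr => hmin r (le_trans hq hqr) hr, hq⟩

lemma W_rel {p q : P0} (hp : p ∈ W) (hpq : p < q) : WellOrderingRel p q := by
  rcases trichotomous_of (WellOrderingRel : P0 → P0 → Prop) p q with h | h | h
  · exact h
  · exact absurd h hpq.ne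
  · exact absurd hpq.le (hp q h)

/-- Chains of `W` have size at most `ℵ_ω`. -/
lemma smallChain (C : Set P0) (hCW : C ⊆ W) (hC : IsChain (· ≤ ·) C) :
    #C ≤ ℵ_ Ordinal.omega0.{0} := by
  classical
  have hwf : WellFounded (WellOrderingRel : P0 → P0 → Prop) := WellOrderingRel.isWellOrder.wf
  -- the successor function
  have hsucc : ∀ p ∈ C, (∃ q ∈ C, p < q) → ∃ q ∈ C, p < q ∧ ∀ r ∈ C, p < r → q ≤ r := by
    intro p hp hex
    obtain ⟨q, ⟨hqC, hpq⟩, hmin⟩ := hwf.has_min {q | q ∈ C ∧ p < q} hex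
    refine ⟨q, hqC, hpq, fun r hr hpr => ?_⟩
    by_contra hqr
    rcases hC.total hqC hr with h | h
    · exact hqr h
    · exact hmin r ⟨hr, hpr⟩ (W_rel (hCW hr) (lt_of_le_not_ge h hqr))
  have hn : ∀ p : {p : P0 // p ∈ C ∧ ∃ q ∈ C, p < q}, ∃ n, ∀ r ∈ C, p.1 < r → p.1 n < r n := by
    rintro ⟨p, hp, hex⟩
    obtain ⟨q, hq, hpq, hmin⟩ := hsucc p hp hex
    obtain ⟨-, n, hn⟩ := Pi.lt_def.1 hpq
    exact ⟨n, fun r hr hpr => hn.trans_le (hmin r hr hpr n)⟩
  choose N hN using hn
  have hinj : Function.Injective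
      (fun p : {p : P0 // p ∈ C ∧ ∃ q ∈ C, p < q} => (⟨N p, p.1 (N p)⟩ : Σ n, T n)) := by
    have key : ∀ p q : {p : P0 // p ∈ C ∧ ∃ q ∈ C, p < q}, p.1 < q.1 →
        (⟨N p, p.1 (N p)⟩ : Σ n, T n) ≠ ⟨N q, q.1 (N q)⟩ := by
      intro p q hpq heq
      have h1 := hN p q.1 q.2.1 hpq
      have h2 : p.1 (N p) = q.1 (N p) := by
        have h3 : N p = N q := congrArg Sigma.fst heq
        have h4 := (Sigma.mk.inj_iff.1 heq).2
        rw [← h3] at h4
        exact eq_of_heq h4
      exact absurd h2 h1.ne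
    intro p q hpq
    by_contra hne
    have hne' : p.1 ≠ q.1 := fun h => hne (Subtype.ext h)
    rcases hC.total p.2.1 q.2.1 with h | h
    · exact key p q (lt_of_le_of_ne h hne') hpq
    · exact key q p (lt_of_le_of_ne h hne'.symm) hpq.symm
  have h1 : #{p : P0 // p ∈ C ∧ ∃ q ∈ C, p < q} ≤ ℵ_ Ordinal.omega0.{0} := by
    refine (mk_le_of_injective hinj).trans ?_
    rw [mk_sigma]
    refine (sum_le_mk_mul_iSup _).trans ?_
    rw [mk_nat]
    refine (mul_le_max_of_aleph0_le_left le_rfl).trans (max_le (aleph0_le_aleph _) ?_)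
    refine ciSup_le' fun n => ?_
    rw [mkT]
    refine aleph_le_aleph.2 ?_
    have : ((n : Ordinal.{0}) + 1) < Ordinal.omega0 := by
      exact_mod_cast Ordinal.natCast_lt_omega0 (n + 1)
    exact this.le
  have h2 : #{p : P0 | p ∈ C ∧ ¬ ∃ q ∈ C, p < q} ≤ 1 := by
    rw [mk_le_one_iff_set_subsingleton]
    rintro p ⟨hp, hp'⟩ q ⟨hq, hq'⟩
    rcases hC.total hp hq with h | h
    · by_contra hne
      exact hp' ⟨q, hq, lt_of_le_of_ne h hne⟩
    · by_contra hne
      exact hq' ⟨p, hp, lt_of_le_of_ne h (Ne.symm hne)⟩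
  have h3 : C ⊆ {p : P0 | p ∈ C ∧ ∃ q ∈ C, p < q} ∪ {p : P0 | p ∈ C ∧ ¬ ∃ q ∈ C, p < q} := by
    intro p hp
    by_cases h : ∃ q ∈ C, p < q
    · exact Or.inl ⟨hp, h⟩
    · exact Or.inr ⟨hp, h⟩
  refine (mk_le_mk_of_subset h3).trans ((mk_union_le _ _).trans ?_)
  refine (add_le_add h1 h2).trans ?_
  rw [add_eq_left (aleph0_le_aleph _) ((one_lt_aleph0.le).trans (aleph0_le_aleph _))]

/-- There is, in ZFC, a partial order no cofinal subset of which has property (R). -/
theorem result : ∃ (P : Type) (_ : PartialOrder P),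
    ∀ Q : Set P, IsCofinal Q → ¬ PropR Q := by
  refine ⟨W, inferInstance, fun Q hQ hR => ?_⟩
  -- the image of `Q` is cofinal in `P0`
  have hQ0 : ∀ p : P0, ∃ q ∈ ((↑) : W → P0) '' Q, p ≤ q := by
    intro p
    obtain ⟨w, hw, hpw⟩ := W_cofinal p
    obtain ⟨q, hq, hwq⟩ := hQ ⟨w, hw⟩
    exact ⟨q, ⟨q, hq, rfl⟩, hpw.trans hwq⟩
  obtain ⟨E, hEQ, hEc, hEm⟩ := hugeChain _ hQ0
  -- a maximal chain of `Q` containing `E`
  let S : Set (Set W) := {D | D ⊆ Q ∧ IsChain (· ≤ ·) D}
  obtain ⟨C, hEC, hCmax⟩ := zorn_subset_nonempty S (by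
      intro c hcS hc _
      refine ⟨⋃₀ c, ⟨sUnion_subset fun D hD => (hcS hD).1, ?_⟩, fun s hs => subset_sUnion_of_mem hs⟩
      intro x hx y hy hxy
      obtain ⟨D, hD, hxD⟩ := hx
      obtain ⟨D', hD', hyD'⟩ := hy
      rcases hc.total hD hD' with h | h
      · exact (hcS hD').2 (h hxD) hyD' hxy
      · exact (hcS hD).2 hxD (h hyD') hxy) (((↑) : W → P0) ⁻¹' E) (by
      refine ⟨?_, ?_⟩
      · intro w hw
        obtain ⟨q, hq, hqw⟩ := hEQ hw
        rwa [Subtype.ext hqw] at hq
      · intro x hx y hy hxy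
        exact hEc hx hy (fun h => hxy (Subtype.ext h)))
  have hCS : C ∈ S := hCmax.prop
  have hmax : IsMaxChainOf Q C := ⟨hCS.1, hCS.2, fun D hDQ hD hCD =>
    Subset.antisymm (hCmax.le_of_ge ⟨hDQ, hD⟩ hCD) hCD⟩
  have hCeq : #C = #(((↑) : W → P0) '' C) := (mk_image_eq Subtype.val_injective).symm
  have hup : #C ≤ ℵ_ Ordinal.omega0.{0} := by
    rw [hCeq]
    refine smallChain _ ?_ ?_
    · rintro _ ⟨w, -, rfl⟩
      exact w.2
    · rintro _ ⟨x, hx, rfl⟩ _ ⟨y, hy, rfl⟩ hxy
      exact hCS.2 hx hy (fun h => hxy (congrArg _ h))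
  have hlow : ℵ_ Ordinal.omega0.{0} ≤ #C := by
    rw [hCeq]
    refine hEm.trans (mk_le_mk_of_subset ?_)
    intro x hx
    obtain ⟨q, hq, hqx⟩ := hEQ hx
    refine ⟨q, hEC ?_, hqx⟩
    rw [mem_preimage, hqx]
    exact hx
  have heq : #C = ℵ_ Ordinal.omega0.{0} := le_antisymm hup hlow
  rcases hR C hmax with h | h
  · rw [heq] at h
    exact absurd h (not_lt.2 (aleph0_le_aleph _))
  · rw [heq] at h
    exact isSingular_aleph_omega0.not_isRegular h

end Pool.Agent.Results.MP_43ca77_lc.NoRegularCofinal
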